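import Pool.Agent.Lib.MP_e26d5c_nt.AG.S10

set_option autoImplicit false

/-!
# Finite index of arboreal Galois groups for `k (x^2+1)/x`
-/

namespace Pool.Agent.Results.MP_e26d5c_nt.FiniteIndex

open Pool.Agent.Lib.MP_e26d5c_nt.AG

/-- Let `phi = k (x^2+1)/x`, `k` a nonzero integer.  The arboreal Galois group of `phi` is contained in
the centraliser group, it is equal to it if `4` does not divide `k`, and it has finite index in it
if at most one of the exceptional primes (the prime divisors of the numerators of `r_j^2+1`, where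
`r_0 = 1/2` and `r_(j+1) = r_j/(r_j^2+1)`) divides `k`. -/
theorem result : ∀ k : ℤ, k ≠ 0 →
    GalImg k ≤ CentGroup k ∧
    (¬ (4 : ℤ) ∣ k → GalImg k = CentGroup k) ∧
    ((∀ p q : ℕ, Exc p → Exc q → (p : ℤ) ∣ k → (q : ℤ) ∣ k → p = q) →
      (GalImg k).relIndex (CentGroup k) ≠ 0) := by
  intro k hk
  exact ⟨(main.1 k hk).1, main.2.1 k hk, main.2.2.1 k hk⟩

end Pool.Agent.Results.MP_e26d5c_nt.FiniteIndex
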