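import Pool.Agent.Lib.MP_e26d5c_nt.AG.S12

set_option autoImplicit false

/-!
# Finite index from finiteness of rational points on explicit curves of genus 3
-/

namespace Pool.Agent.Results.MP_e26d5c_nt.IndexFromPoints

open Pool.Agent.Lib.MP_e26d5c_nt.AG Polynomial

/-- Let `phi = k (x^2+1)/x`, `k` any nonzero integer, and
`octic k = (k^2 (X^2+1)^2 + X^2)^2 + X^2 (X^2+1)^2`.  For every nonzero integer `d` the polynomial
`d * octic k` has degree 8 and is squarefree (so the curve `d y^2 = octic k (t)` has genus 3), and if
for every nonzero divisor `d` of `2k` this curve has only finitely many rational points then the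
arboreal Galois group has finite index in the centraliser group. -/
theorem result : ∀ k : ℤ, k ≠ 0 →
    (∀ d : ℤ, d ≠ 0 → (Polynomial.C (d : ℚ) * octic k).natDegree = 8 ∧ Squarefree (Polynomial.C (d : ℚ) * octic k)) ∧
    ((∀ d : ℤ, d ≠ 0 → d ∣ 2 * k →
        {P : ℚ × ℚ | (d : ℚ) * P.2 ^ 2 = (octic k).eval P.1}.Finite) →
      (GalImg k).relIndex (CentGroup k) ≠ 0) := by
  intro k hk
  refine ⟨fun d hd => octic_facts hk hd, fun h => main_curves hk fun d hd hdk => ?_⟩
  have h1 := h d hd hdk
  simpa only [eval_octic] using h1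

end Pool.Agent.Results.MP_e26d5c_nt.IndexFromPoints
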