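import Pool.Agent.Lib.MP_e26d5c_nt.AG.S11

set_option autoImplicit false

/-!
# All iterates of `k (x^2+1)/x` have irreducible numerators
-/

namespace Pool.Agent.Results.MP_e26d5c_nt.Stability

open Pool.Agent.Lib.MP_e26d5c_nt.AG

/-- Let `phi = k (x^2+1)/x`, `k` any nonzero integer, `n` a natural number.  The level `n` of the
preimage tree of `0` has `2^n` points, every point of it has degree `2^n` over `ℚ`, and the Galois
group permutes the points of the level transitively. -/
theorem result : ∀ k : ℤ, k ≠ 0 → ∀ n : ℕ,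
    (Lev k n).ncard = 2 ^ n ∧
    (∀ y : Qb, y ∈ Lev k n → (minpoly ℚ y).natDegree = 2 ^ n) ∧
    ∀ y z : Qb, y ∈ Lev k n → z ∈ Lev k n → ∃ σ : Qb ≃ₐ[ℚ] Qb, σ y = z :=
  fun _ hk n => ⟨ncard_Lev hk n, fun _ hy => natDegree_Lev hk n hy,
    fun y z hy hz => trans_Lev hk n y z hy hz⟩

end Pool.Agent.Results.MP_e26d5c_nt.Stability
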